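import Mathlib

/-!
# Growth of the prime-power threshold `g(k)` in two-generator Frobenius gaps

We prove that for every real `M > 0` there is `k₀` with `g(k) > M ^ k` for all `k ≥ k₀`.

Idea. For `a ≥ 2` the pair `(a, a + 1)` represents exactly the integers `a * s + y` with
`0 ≤ y ≤ s`.  Put `q = (2 m) ^ 2` with `m ≥ M` and let `a` run over `(A, 2 A]` where
`2 A = (2 m) ^ k`, so that `g_{a, a+1} < q ^ k`.  For each `n < q` the power `n ^ k` is
representable for at most `2 n ^ k / A` values `a`, and `2 q (q - 1) ^ k / A < A` for large `k`,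
so some `a > A ≥ M ^ k` gives a pair `(a, a + 1)` which is not `k`-good.
-/

namespace Pool.Agent.Results.MP_0e842d_nt.GkSuperexponential

/-- `(a₁, a₂)` is `k`-good: some prime `p` satisfies `p ^ k ≤ a₁ a₂ - a₁ - a₂` and
`p ^ k = a₁ x + a₂ y` for some nonnegative integers `x, y`. -/
def KGood (k a₁ a₂ : ℕ) : Prop :=
  ∃ p : ℕ, p.Prime ∧ (p : ℤ) ^ k ≤ (a₁ : ℤ) * (a₂ : ℤ) - (a₁ : ℤ) - (a₂ : ℤ) ∧
    ∃ x y : ℕ, p ^ k = a₁ * x + a₂ * y

/-- `N` is a positive integer such that every coprime pair `(a₁, a₂)` with `1 < a₁`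
and `N < a₁ < a₂` is `k`-good.  The number `g(k)` is the least such `N`. -/
def IsThreshold (k N : ℕ) : Prop :=
  0 < N ∧ ∀ a₁ a₂ : ℕ, 1 < a₁ → N < a₁ → a₁ < a₂ → Nat.Coprime a₁ a₂ → KGood k a₁ a₂

/-- `g(k)`: the least positive integer `N` such that every coprime pair `(a₁, a₂)` with
`N < a₁ < a₂` is `k`-good (the value would be `⊤` if there were no such `N`; by Huang and Zhu
there always is one). -/
noncomputable def g (k : ℕ) : ℕ∞ :=
  ⨅ (N : ℕ) (_ : IsThreshold k N), (N : ℕ∞)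

/-- The key step: a pair `(a, a + 1)` with `a` in `(A, 2 A]` that is not `k`-good. -/
lemma exists_not_kGood (m k : ℕ) (hm : 1 ≤ m) (hk : 1 ≤ k)
    (hbig : 8 * (4 * m ^ 2) * (4 * m ^ 2 - 1) ^ k < (4 * m ^ 2) ^ k) :
    ∃ a : ℕ, 1 < a ∧ m ^ k < a ∧ ¬ KGood k a (a + 1) := by
  classical
  obtain ⟨A, hA⟩ : ∃ A : ℕ, (2 * m) ^ k = 2 * A := by
    obtain ⟨j, rfl⟩ : ∃ j, k = j + 1 := ⟨k - 1, by omega⟩
    exact ⟨m * (2 * m) ^ j, by ring⟩
  set q : ℕ := 4 * m ^ 2 with hq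
  have hqA : q ^ k = 4 * A ^ 2 := by
    have : q = (2 * m) ^ 2 := by rw [hq]; ring
    rw [this, ← pow_mul, mul_comm 2 k, pow_mul, hA]; ring
  have hmA : m ^ k ≤ A := by
    have h1 : (2 * m) ^ k = 2 ^ k * m ^ k := mul_pow 2 m k
    have h2 : 2 ≤ 2 ^ k := by
      calc 2 = 2 ^ 1 := by norm_num
        _ ≤ 2 ^ k := Nat.pow_le_pow_right (by norm_num) hk
    have h3 : 2 * m ^ k ≤ 2 ^ k * m ^ k := Nat.mul_le_mul_right _ h2
    omega
  have hmk : 1 ≤ m ^ k := Nat.one_le_pow _ _ hm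
  have hApos : 0 < A := by omega
  set S : ℕ := (q - 1) ^ k / A with hS
  have hSA : S * A ≤ (q - 1) ^ k := Nat.div_mul_le_self _ _
  have hcount : q * (S * 2) < A := by
    by_contra hcon
    push Not at hcon
    have h1 : A * A ≤ q * (S * 2) * A := Nat.mul_le_mul_right _ hcon
    have h2 : q * (S * 2) * A = 2 * q * (S * A) := by ring
    have h3 : 2 * q * (S * A) ≤ 2 * q * (q - 1) ^ k := Nat.mul_le_mul_left _ hSA
    have h4 : 8 * q * (q - 1) ^ k < 4 * A ^ 2 := by rw [← hqA]; exact hbig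
    nlinarith
  set bad : Finset ℕ :=
    ((Finset.range q) ×ˢ ((Finset.Icc 1 S) ×ˢ (Finset.range 2))).image
      (fun t => t.1 ^ k / t.2.1 - t.2.2) with hbad
  have hcard : bad.card < (Finset.Ioc A (2 * A)).card := by
    calc bad.card ≤ ((Finset.range q) ×ˢ ((Finset.Icc 1 S) ×ˢ (Finset.range 2))).card :=
          Finset.card_image_le
      _ = q * (S * 2) := by simp
      _ < A := hcount
      _ = (Finset.Ioc A (2 * A)).card := by simp; omega
  obtain ⟨a, haI, habad⟩ : ∃ a ∈ Finset.Ioc A (2 * A), a ∉ bad :=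
    Finset.exists_mem_notMem_of_card_lt_card hcard
  rw [Finset.mem_Ioc] at haI
  obtain ⟨ha1, ha2⟩ := haI
  refine ⟨a, by omega, by omega, ?_⟩
  rintro ⟨p, hp, hple, x, y, hxy⟩
  apply habad
  -- `p < q`
  have hpq : p < q := by
    by_contra hcon
    push Not at hcon
    have h1 : q ^ k ≤ p ^ k := Nat.pow_le_pow_left hcon k
    have h2 : ((q ^ k : ℕ) : ℤ) ≤ ((p ^ k : ℕ) : ℤ) := by exact_mod_cast h1
    rw [hqA] at h2
    push_cast at h2 hple
    have h3 : (a : ℤ) ≤ 2 * (A : ℤ) := by exact_mod_cast ha2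
    have h4 : (0 : ℤ) ≤ (a : ℤ) := by positivity
    nlinarith
  have hppos : 0 < p ^ k := Nat.pow_pos hp.pos
  -- `s = x + y`
  have hs1 : 1 ≤ x + y := by
    by_contra hcon
    have hx : x = 0 := by omega
    have hy : y = 0 := by omega
    subst hx; subst hy
    rw [hxy] at hppos
    simp at hppos
  have hlow : a * (x + y) ≤ p ^ k := by rw [hxy]; nlinarith
  have hup : p ^ k ≤ (a + 1) * (x + y) := by rw [hxy]; nlinarith
  have hsS : x + y ≤ S := by
    rw [hS, Nat.le_div_iff_mul_le hApos]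
    calc (x + y) * A ≤ (x + y) * a := Nat.mul_le_mul_left _ ha1.le
      _ = a * (x + y) := mul_comm _ _
      _ ≤ p ^ k := hlow
      _ ≤ (q - 1) ^ k := Nat.pow_le_pow_left (by omega) k
  have hd1 : a ≤ p ^ k / (x + y) := by
    rw [Nat.le_div_iff_mul_le (by omega)]; exact hlow
  have hd2 : p ^ k / (x + y) ≤ a + 1 := by
    apply Nat.div_le_of_le_mul
    rw [mul_comm]; exact hup
  rw [hbad, Finset.mem_image]
  refine ⟨(p, (x + y, p ^ k / (x + y) - a)), ?_, ?_⟩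
  · simp only [Finset.mem_product, Finset.mem_range, Finset.mem_Icc]
    refine ⟨hpq, ⟨hs1, hsS⟩, by omega⟩
  · simp only
    omega

/-- Every threshold exceeds some `a` with `a > m ^ k`, once `k` is large. -/
lemma exists_lt_of_threshold (m k : ℕ) (hm : 1 ≤ m) (hk : 1 ≤ k)
    (hbig : 8 * (4 * m ^ 2) * (4 * m ^ 2 - 1) ^ k < (4 * m ^ 2) ^ k) :
    ∃ a : ℕ, m ^ k < a ∧ ∀ N : ℕ, IsThreshold k N → a ≤ N := by
  obtain ⟨a, ha1, ham, hbad⟩ := exists_not_kGood m k hm hk hbig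
  refine ⟨a, ham, ?_⟩
  intro N hN
  by_contra hcon
  push Not at hcon
  exact hbad (hN.2 a (a + 1) ha1 hcon (Nat.lt_succ_self a) (by simp))

/-- **Answer to Q1 (affirmative).**  For every real `M > 0` there is `k₀` such that
`g(k) > M ^ k` for all `k ≥ k₀`. -/
theorem result : ∀ M : ℝ, 0 < M → ∃ k₀ : ℕ, ∀ k : ℕ, k₀ ≤ k →
    ENNReal.ofReal (M ^ k) < ((g k : ℕ∞) : ENNReal) := by
  intro M hM
  obtain ⟨m, hm⟩ := exists_nat_ge M
  have hm1 : 1 ≤ m := by
    have : (0 : ℝ) < m := lt_of_lt_of_le hM hm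
    exact_mod_cast this
  set q : ℕ := 4 * m ^ 2 with hq
  have hq4 : 4 ≤ q := by
    have : 1 ≤ m ^ 2 := Nat.one_le_pow _ _ hm1
    omega
  -- `8 q (1 - 1/q)^k < 1` for large `k`
  have hqR : (4 : ℝ) ≤ (q : ℝ) := by exact_mod_cast hq4
  have hr0 : (0 : ℝ) ≤ ((q : ℝ) - 1) / q := by
    apply div_nonneg <;> linarith
  have hr1 : ((q : ℝ) - 1) / q < 1 := by
    rw [div_lt_one (by linarith)]; linarith
  have hlim := tendsto_pow_atTop_nhds_zero_of_lt_one hr0 hr1
  have hev : ∀ᶠ k : ℕ in Filter.atTop, (((q : ℝ) - 1) / q) ^ k < 1 / (8 * q) :=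
    hlim.eventually (gt_mem_nhds (by positivity))
  obtain ⟨k₁, hk₁⟩ := Filter.eventually_atTop.mp hev
  refine ⟨max k₁ 1, ?_⟩
  intro k hk
  have hk1 : k₁ ≤ k := le_trans (le_max_left _ _) hk
  have hk2 : 1 ≤ k := le_trans (le_max_right _ _) hk
  have hlt := hk₁ k hk1
  have hbig : 8 * q * (q - 1) ^ k < q ^ k := by
    have hqpos : (0 : ℝ) < (q : ℝ) := by linarith
    rw [div_pow, div_lt_div_iff₀ (by positivity) (by positivity)] at hlt
    have hcast : (((q - 1 : ℕ) : ℝ)) = (q : ℝ) - 1 := by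
      rw [Nat.cast_sub (by omega)]; simp
    have : ((8 * q * (q - 1) ^ k : ℕ) : ℝ) < ((q ^ k : ℕ) : ℝ) := by
      push_cast
      rw [hcast]
      linarith
    exact_mod_cast this
  obtain ⟨a, ham, hthr⟩ := exists_lt_of_threshold m k hm1 hk2 hbig
  have hMk : M ^ k ≤ (m : ℝ) ^ k := pow_le_pow_left₀ hM.le hm k
  have hMa : M ^ k < (a : ℝ) := by
    have : ((m ^ k : ℕ) : ℝ) < (a : ℝ) := by exact_mod_cast ham
    push_cast at this
    linarith
  have hag : (a : ℕ∞) ≤ g k := by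
    unfold g
    refine le_iInf₂ ?_
    intro N hN
    exact_mod_cast hthr N hN
  have h1 : ENNReal.ofReal (M ^ k) < (a : ENNReal) := by
    rw [← ENNReal.ofReal_natCast a]
    exact (ENNReal.ofReal_lt_ofReal_iff (lt_of_le_of_lt (by positivity) hMa)).mpr hMa
  have h2 : (a : ENNReal) ≤ ((g k : ℕ∞) : ENNReal) := by
    have h3 := ENat.toENNReal_mono hag
    simpa using h3
  exact lt_of_lt_of_le h1 h2

end Pool.Agent.Results.MP_0e842d_nt.GkSuperexponential
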